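import Pool.Agent.H43.BG.Main

namespace Pool.Agent.Results.MP_28263e_pr.BassGap

open Pool.Agent.H78.Bass Pool.Agent.H43.BG

/-- Let `w` be a network (directed edges allowed) with `M ≥ 2` nodes, external rate `p > 0` and total
incoming weight `q > 0` at every node, and let
`g(t) = ∫₀ᵗ f_Bass(s) (f_Bass(t) - f_Bass(s)) ds`, which is positive for `t > 0`. For all `t ≥ 0`:

1. `f(t; w) ≤ f_Bass(t) - (e^{-(p+q)t} / (p M)) g(t) ∑_{k<j} (w_kj + w_jk)²`;
2. `f(t; w) ≤ f_Bass(t) - (M q² / (p E)) e^{-(p+q)t} g(t)` if at most `E` pairs of nodes are joined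
   by an edge;
3. `f(t; w) ≤ f_Bass(t) - (2 q² / (p (M-1))) e^{-(p+q)t} g(t)`;
4. `f(t; w) ≤ f_complete(t; p, q, M)` if
   `g(t) ∑_{k<j} (w_kj + w_jk)² ≥ p M e^{(p+q)t} (f_Bass(t) - f_complete(t; p, q, M))`. -/
theorem result {M : ℕ} (hM : 2 ≤ M) {p q : ℝ} (hp : 0 < p) (hq : 0 < q) :
    (∀ t, 0 < t → 0 < ∫ s in (0:ℝ)..t, fBass p q s * (fBass p q t - fBass p q s)) ∧
    ∀ w : Fin M → Fin M → ℝ, IsHomogeneous q w → ∀ t, 0 ≤ t →
      level (fun _ => p) w t ≤ fBass p q t - Real.exp (-(p + q) * t) / (p * M) *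
        ((∑ k, ∑ j, (w k j + w j k) ^ 2) / 2) *
        ∫ s in (0:ℝ)..t, fBass p q s * (fBass p q t - fBass p q s) ∧
      (∀ E : ℕ, {x : Fin M × Fin M | x.1 < x.2 ∧ 0 < w x.1 x.2 + w x.2 x.1}.ncard ≤ E →
        level (fun _ => p) w t ≤ fBass p q t - M * q ^ 2 / (p * E) * Real.exp (-(p + q) * t) *
          ∫ s in (0:ℝ)..t, fBass p q s * (fBass p q t - fBass p q s)) ∧
      level (fun _ => p) w t ≤ fBass p q t - 2 * q ^ 2 / (p * ((M : ℝ) - 1)) *
        Real.exp (-(p + q) * t) *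
        ∫ s in (0:ℝ)..t, fBass p q s * (fBass p q t - fBass p q s) ∧
      (p * M * Real.exp ((p + q) * t) *
          (fBass p q t - level (fun _ : Fin M => p) (completeW q) t) ≤
        ((∑ k, ∑ j, (w k j + w j k) ^ 2) / 2) *
          ∫ s in (0:ℝ)..t, fBass p q s * (fBass p q t - fBass p q s) →
        level (fun _ => p) w t ≤ level (fun _ : Fin M => p) (completeW q) t) :=
  ⟨fun _ ht => gap_pos hp hq ht, fun _ hw _ ht => ⟨level_le_pairs hM hp hq hw ht,
    fun E hE => level_le_edges hM hp hq hw E hE ht, level_le_uniform hM hp hq hw ht,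
    level_le_complete hM hp hq hw ht⟩⟩

end Pool.Agent.Results.MP_28263e_pr.BassGap
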