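import Pool.Agent.H68.BD.Fin
import Pool.Agent.H68.BE.Fin

namespace Pool.Agent.Results.MP_28263e_pr.DirectedNetworks

open Pool.Agent.H78.Bass

/-- Let `w` be any network (directed edges allowed) with `M ≥ 2` nodes, external rate `p > 0` at every
node and total incoming weight `q > 0` at every node.

1. `f(t; w) ≤ f_complete(t; p, q, M)` for all `t ≥ 0` such that `10 q ≤ p` or `t ≤ 1 / (20 q)`: for
   all times if `p ≥ 10 q`, and for `0 ≤ t ≤ 1 / (20 q)` whatever `p`, `q` and `M` are.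
2. The inequality is strict for all `t > 0` such that `10 q ≤ p` or `t ≤ 1 / (20 q)` if
   `w k j + w j k ≠ 2 q / (M - 1)` for some `k ≠ j`.
3. If `w k j + w j k = 2 q / (M - 1)` for all `k ≠ j`, then equality holds for all `t ≥ 0`. -/
theorem result {M : ℕ} (hM : 2 ≤ M) {p q : ℝ} (hp : 0 < p) (hq : 0 < q)
    (w : Fin M → Fin M → ℝ) (hw : IsHomogeneous q w) :
    (∀ t, 0 ≤ t → (10 * q ≤ p ∨ t ≤ 1 / (20 * q)) →
      level (fun _ => p) w t ≤ level (fun _ : Fin M => p) (completeW q) t) ∧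
    ((∃ k j, k ≠ j ∧ w k j + w j k ≠ 2 * (q / ((M : ℝ) - 1))) →
      ∀ t, 0 < t → (10 * q ≤ p ∨ t ≤ 1 / (20 * q)) →
      level (fun _ => p) w t < level (fun _ : Fin M => p) (completeW q) t) ∧
    ((∀ k j, k ≠ j → w k j + w j k = 2 * (q / ((M : ℝ) - 1))) → ∀ t, 0 ≤ t →
      level (fun _ => p) w t = level (fun _ : Fin M => p) (completeW q) t) := by
  have hT : ∀ t : ℝ, t ≤ 1 / (20 * q) → q * t ≤ 1 / 20 := by
    intro t ht
    rw [le_div_iff₀ (by positivity)] at ht
    linarith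
  refine ⟨fun t ht h => ?_, fun hne t ht h => ?_,
    fun hb _ ht => Pool.Agent.H68.BD.main_eq hM hq hw hb ht⟩
  · rcases h with h | h
    · exact Pool.Agent.H68.BD.main_le hM hq h hw ht
    · exact Pool.Agent.H68.BE.main_le hM hp hq hw ht (hT t h)
  · rcases h with h | h
    · exact Pool.Agent.H68.BD.main_lt hM hq h hw hne ht
    · exact Pool.Agent.H68.BE.main_lt hM hp hq hw hne ht (hT t h)

end Pool.Agent.Results.MP_28263e_pr.DirectedNetworks
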