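import Pool.Agent.H68.B4.Fin4

namespace Pool.Agent.Results.MP_28263e_pr.FourNodes

open Pool.Agent.H78.Bass

/-- Let `w` be any network (directed edges allowed) with `4` nodes, external rate `p > 0` at every
node and total incoming weight `q > 0` at every node.

1. `f(t; w) ≤ f_complete(t; p, q, 4)` for all `t ≥ 0`.
2. The inequality is strict for all `t > 0` if `w k j + w j k ≠ 2 q / 3` for some `k ≠ j`.
3. If `w k j + w j k = 2 q / 3` for all `k ≠ j`, then equality holds for all `t ≥ 0`. -/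
theorem result {p q : ℝ} (hp : 0 < p) (hq : 0 < q)
    (w : Fin 4 → Fin 4 → ℝ) (hw : IsHomogeneous q w) :
    (∀ t, 0 ≤ t → level (fun _ => p) w t ≤ level (fun _ : Fin 4 => p) (completeW q) t) ∧
    ((∃ k j, k ≠ j ∧ w k j + w j k ≠ 2 * (q / 3)) → ∀ t, 0 < t →
      level (fun _ => p) w t < level (fun _ : Fin 4 => p) (completeW q) t) ∧
    ((∀ k j, k ≠ j → w k j + w j k = 2 * (q / 3)) → ∀ t, 0 ≤ t →
      level (fun _ => p) w t = level (fun _ : Fin 4 => p) (completeW q) t) :=
  ⟨fun _ ht => Pool.Agent.H68.B4.main_le hp hq hw ht,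
    fun hne _ ht => Pool.Agent.H68.B4.main_lt hp hq hw hne ht,
    fun hb _ ht => Pool.Agent.H68.B4.main_eq hq hw hb ht⟩

end Pool.Agent.Results.MP_28263e_pr.FourNodes
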