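import Pool.Agent.H78.Bass.Final
import Pool.Agent.H30.CV.Strict

/-!
# Random networks with independent columns

Authors: helper78 (deterministic case), helper32, helper44, helper30 (random columns).
-/

namespace Pool.Agent.Results.MP_28263e_pr.UndirectedFastest

open Pool.Agent.H78.Bass

/-- The mean network: node `j` takes the column `col j r` of incoming weights with probability
`ω j r`. -/
noncomputable def meanNet {M N : ℕ} (ω : Fin M → Fin N → ℝ) (col : Fin M → Fin N → Fin M → ℝ) :
    Fin M → Fin M → ℝ :=
  fun k j => ∑ r, ω j r * col j r k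

/-- The expectation of `f(t; w)` when the nodes choose their columns independently. -/
noncomputable def meanLevel {M N : ℕ} (p : ℝ) (ω : Fin M → Fin N → ℝ)
    (col : Fin M → Fin N → Fin M → ℝ) (t : ℝ) : ℝ :=
  ∑ x : Fin M → Fin N, (∏ j, ω j (x j)) * level (fun _ => p) (fun k j => col j (x j) k) t

/-- Let `M ≥ 2`, `p, q > 0`, and let every node `j` choose its column of incoming weights at random
from a list `col j r` with probabilities `ω j r`, independently of the other nodes, so that every
possible network `w k j = col j (x j) k` has external rate `p` and incoming weight `q` at every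
node. Let `m = E w` be the mean network and `a = q / (M - 1)`.

1. `E f(t; w) ≤ f(t; m)` for `t ≥ 0`; the inequality is strict for `t > 0` if a column of positive
   probability differs from the column of `m`, and otherwise it is an equality.
2. If `m` is undirected, then `E f(t; w) ≤ f_complete(t; p, q, M)` for `t ≥ 0`, and the inequality
   is strict for `t > 0` if a column of positive probability differs from the column of the
   homogeneous complete network.
3. If `M = 3`, then `E f(t; w) ≤ f_complete(t; p, q, 3)` for `t ≥ 0`.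
4. The inequality holds if for every set `Z` of nodes
   `∑_{j ∈ Z} (i_j - (|Z|-1) a) (i_j + o_j - 2 (|Z|-1) a) ≥ 0`, where `i_j`, `o_j` are the weights
   of `m` from `Z` to `j` and from `j` to `Z`.
5. If `m k j + m j k = 2 a` for all `k ≠ j`, then
   `E f(t; w) ≤ f(t; m) = f_complete(t; p, q, M)` for `t ≥ 0`. -/
theorem result {M : ℕ} (hM : 2 ≤ M) {p q : ℝ} (hp : 0 < p) (hq : 0 < q) {N : ℕ}
    (ω : Fin M → Fin N → ℝ) (hω : ∀ j r, 0 ≤ ω j r) (hω1 : ∀ j, ∑ r, ω j r = 1)
    (col : Fin M → Fin N → Fin M → ℝ)
    (hcol : ∀ x : Fin M → Fin N, IsHomogeneous q (fun k j => col j (x j) k)) :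
    ((∀ t, 0 ≤ t → meanLevel p ω col t ≤ level (fun _ => p) (meanNet ω col) t) ∧
      ((∃ j r k, 0 < ω j r ∧ col j r k ≠ meanNet ω col k j) → ∀ t, 0 < t →
        meanLevel p ω col t < level (fun _ => p) (meanNet ω col) t) ∧
      ((∀ j r k, 0 < ω j r → col j r k = meanNet ω col k j) → ∀ t,
        meanLevel p ω col t = level (fun _ => p) (meanNet ω col) t)) ∧
    ((∀ k j, meanNet ω col k j = meanNet ω col j k) →
      (∀ t, 0 ≤ t → meanLevel p ω col t ≤ level (fun _ : Fin M => p) (completeW q) t) ∧
      ((∃ j r k, 0 < ω j r ∧ col j r k ≠ completeW q k j) → ∀ t, 0 < t →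
        meanLevel p ω col t < level (fun _ : Fin M => p) (completeW q) t)) ∧
    (M = 3 → ∀ t, 0 ≤ t →
      meanLevel p ω col t ≤ level (fun _ : Fin M => p) (completeW q) t) ∧
    ((∀ Z : Finset (Fin M), 0 ≤ ∑ j ∈ Z,
        (∑ k ∈ Z, meanNet ω col k j - ((Z.card : ℝ) - 1) * (q / ((M : ℝ) - 1))) *
        (∑ k ∈ Z, meanNet ω col k j + ∑ k ∈ Z, meanNet ω col j k -
          2 * (((Z.card : ℝ) - 1) * (q / ((M : ℝ) - 1))))) →
      ∀ t, 0 ≤ t → meanLevel p ω col t ≤ level (fun _ : Fin M => p) (completeW q) t) ∧
    ((∀ k j, k ≠ j → meanNet ω col k j + meanNet ω col j k = 2 * (q / ((M : ℝ) - 1))) →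
      ∀ t, 0 ≤ t → meanLevel p ω col t ≤ level (fun _ => p) (meanNet ω col) t ∧
        level (fun _ => p) (meanNet ω col) t = level (fun _ : Fin M => p) (completeW q) t) := by
  -- there is at least one column
  have hN : ∃ r0 : Fin N, True := by
    by_contra h
    push Not at h
    have h1 := hω1 ⟨0, by omega⟩
    rw [Finset.sum_eq_zero (fun r _ => (h r).elim)] at h1
    exact zero_ne_one h1
  obtain ⟨r0, -⟩ := hN
  have hc0 : ∀ j r k, 0 ≤ col j r k := fun j r k => (hcol fun _ => r).nonneg k j
  have hcd : ∀ j r, col j r j = 0 := fun j r => (hcol fun _ => r).diag j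
  have hcs : ∀ j r, ∑ k, col j r k = q := fun j r => (hcol fun _ => r).sum j
  have hw : IsHomogeneous q (meanNet ω col) := by
    refine ⟨fun k j => Finset.sum_nonneg fun r _ => mul_nonneg (hω j r) (hc0 j r k),
      fun j => Finset.sum_eq_zero fun r _ => by rw [hcd, mul_zero], fun j => ?_⟩
    unfold meanNet
    rw [Finset.sum_comm]
    simp_rw [← Finset.mul_sum, hcs]
    rw [← Finset.sum_mul, hω1, one_mul]
  have hmean : ∀ t, 0 ≤ t → meanLevel p ω col t ≤ level (fun _ => p) (meanNet ω col) t :=
    fun t ht => Pool.Agent.H30.CV.level_mean (by omega) hp.le ω hω hω1 col hc0 ht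
  have hstrict : (∃ j r k, 0 < ω j r ∧ col j r k ≠ meanNet ω col k j) → ∀ t, 0 < t →
      meanLevel p ω col t < level (fun _ => p) (meanNet ω col) t := by
    rintro ⟨j, r, k, hr, hne⟩ t ht
    have hkj : k ≠ j := by
      rintro rfl
      apply hne
      rw [hcd, hw.diag]
    exact Pool.Agent.H30.CV.level_mean_lt (by omega) hp ω hω hω1 col hc0 hr hkj hne ht
  refine ⟨⟨hmean, hstrict, fun h1 t => ?_⟩, fun hsym => ⟨fun t ht => ?_, fun hne t ht => ?_⟩, ?_,
    fun hZ t ht => ?_, fun hb t ht => ⟨hmean t ht, ?_⟩⟩
  · have e : ∀ x : Fin M → Fin N, (∏ j, ω j (x j)) *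
        level (fun _ => p) (fun k j => col j (x j) k) t =
        (∏ j, ω j (x j)) * level (fun _ => p) (meanNet ω col) t := by
      intro x
      by_cases hx : ∀ j, 0 < ω j (x j)
      · have : (fun k j => col j (x j) k) = meanNet ω col := by
          funext k j
          exact h1 j (x j) k (hx j)
        rw [this]
      · push Not at hx
        obtain ⟨j, hj⟩ := hx
        have h0 : ω j (x j) = 0 := le_antisymm hj (hω j (x j))
        rw [Finset.prod_eq_zero (Finset.mem_univ j) h0, zero_mul, zero_mul]
    unfold meanLevel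
    simp_rw [e]
    rw [← Finset.sum_mul, Pool.Agent.H30.CV.sum_prod_one ω hω1, one_mul]
  · refine (hmean t ht).trans (level_le hM hp hq hw (fun Z _ => ?_) ht)
    rw [quad_symm hsym]
    exact mul_nonneg (by norm_num) (Finset.sum_nonneg fun j _ => sq_nonneg _)
  · by_cases hmc : meanNet ω col = completeW q
    · rw [← hmc]
      refine hstrict ?_ t ht
      rw [hmc]
      exact hne
    refine (hmean t ht.le).trans_lt (level_lt hM hp hq hw (fun Z _ => ?_) ?_ ht)
    · rw [quad_symm hsym]
      exact mul_nonneg (by norm_num) (Finset.sum_nonneg fun j _ => sq_nonneg _)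
    · obtain ⟨k, hk⟩ := Function.ne_iff.1 hmc
      obtain ⟨j, hj⟩ := Function.ne_iff.1 hk
      have hkj : k ≠ j := by
        rintro rfl
        apply hj
        rw [hw.diag]
        simp [completeW]
      refine ⟨{k, j}, by rw [Finset.card_pair hkj], ?_⟩
      rw [quad_symm hsym]
      refine mul_pos (by norm_num) (Finset.sum_pos' (fun i _ => sq_nonneg _) ⟨j, by simp, ?_⟩)
      have h0 : di (q / ((M : ℝ) - 1)) (meanNet ω col) {k, j} j ≠ 0 := by
        unfold di
        rw [Finset.sum_pair hkj, hw.diag, Finset.card_pair hkj]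
        intro h
        apply hj
        unfold completeW
        rw [if_neg hkj]
        push_cast at h
        linarith
      positivity
  · rintro rfl t ht
    refine (hmean t ht).trans (level_le hM hp hq hw
      (fun Z hZ => quad_three hw.diag hw.sum ?_ Z hZ) ht)
    push_cast
    field_simp
  · refine (hmean t ht).trans (level_le hM hp hq hw (fun Z _ => ?_) ht)
    have := hZ Z
    unfold quad di dou
    convert this using 2
    ring
  · exact level_balanced hM hq hw (balanced_exc hw.diag hb) ht

end Pool.Agent.Results.MP_28263e_pr.UndirectedFastest
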